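import Pool.Agent.Helper62.NT.Goals

/-!
# Project NT (MP_8ff381_an), packet DIS: the pieces of different leaders are disjoint
-/

set_option autoImplicit false

noncomputable section

namespace Pool.Agent.Helper71.NT.DIS

open Pool.Agent.Helper62.NT MeasureTheory

variable {H : Type} [MetricSpace H]

theorem s_pos (D : CD H) (n : ℕ) : 0 < D.s n := by
  have hB : (0 : ℝ) < D.B := by
    have := D.hB
    exact_mod_cast (by omega : 0 < D.B)
  exact div_pos D.hΔ (pow_pos hB n)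

theorem s_mul (D : CD H) (n m : ℕ) : D.s n = ((D.B ^ m : ℕ) : ℝ) * D.s (n + m) := by
  have hB : (0 : ℝ) < D.B := by
    have := D.hB
    exact_mod_cast (by omega : 0 < D.B)
  unfold CD.s
  rw [pow_add]
  push_cast
  have h1 : (D.B : ℝ) ^ m ≠ 0 := (pow_pos hB m).ne'
  have h2 : (D.B : ℝ) ^ n ≠ 0 := (pow_pos hB n).ne'
  field_simp

/-- a common point of the pieces of two leaders on the path to `x` -/
theorem eq_of_common (hRTB : S_RTB) (hLOC : S_LOC) (hPRJ : S_PRJ) (D : CD H) (x : H)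
    (c c' : ℕ × H) (hc : D.Lead c) (hc' : D.Lead c') (hx : D.R.le c.2 x) (hx' : D.R.le c'.2 x)
    (hle : c.1 ≤ c'.1) (t : ℝ) (h1 : D.R.dep c.2 < t) (h2 : t ≤ D.ex c x)
    (h1' : D.R.dep c'.2 < t) (h2' : t ≤ D.ex c' x) : c = c' := by
  obtain ⟨r1, -, r3, -, -, -, r7, -, -, -, -⟩ := hRTB H D.R
  obtain ⟨-, -, l3⟩ := hLOC H D
  obtain ⟨p1, p2, p3, p4⟩ := (hPRJ H D c hc).2.1 x hx |> fun h => (⟨h.1, h.2.1, h.2.2.1, h.2.2.2⟩ :
    _ ∧ _ ∧ _ ∧ _)
  obtain ⟨p1', p2', p3', p4'⟩ := (hPRJ H D c' hc').2.1 x hx' |> fun h =>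
    (⟨h.1, h.2.1, h.2.2.1, h.2.2.2⟩ : _ ∧ _ ∧ _ ∧ _)
  have hd0 : 0 ≤ D.R.dep c.2 := (r1 c.2).1
  have hd0' : 0 ≤ D.R.dep c'.2 := (r1 c'.2).1
  have ht0 : 0 ≤ t := by linarith
  have htx : t ≤ D.R.dep x := by linarith
  have hdt : D.R.dep (D.R.res x t) = t := D.R.dep_res x t ht0 htx
  have hde : D.R.dep (D.R.res x (D.ex c x)) = D.ex c x := D.R.dep_res x _ (by linarith) p2
  have hde' : D.R.dep (D.R.res x (D.ex c' x)) = D.ex c' x := D.R.dep_res x _ (by linarith) p2'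
  rw [hde] at p3
  rw [hde'] at p3'
  have hpx : D.R.le (D.R.res x t) x := (r3 x t ht0 htx).1
  have hvp : D.R.le c.2 (D.R.res x t) := r7 _ _ x hx hpx (by rw [hdt]; exact h1.le)
  have hvp' : D.R.le c'.2 (D.R.res x t) := r7 _ _ x hx' hpx (by rw [hdt]; exact h1'.le)
  have hpe : D.R.le (D.R.res x t) (D.R.res x (D.ex c x)) :=
    r7 _ _ x hpx (r3 x _ (by linarith) p2).1 (by rw [hdt, hde]; exact h2)
  have hconn : D.conn c.2 (D.R.res x t) := (l3 _ _ _ p4 hvp hpe).1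
  obtain ⟨n1, ⟨k, k1, k2⟩, -⟩ := hc
  obtain ⟨n1', ⟨k', k1', k2'⟩, h3⟩ := hc'
  rcases eq_or_lt_of_le hle with he | hlt
  · -- equal scales
    have hs := s_pos D c.1
    rw [← he] at k2' p3'
    have e1 : (k : ℝ) * D.s c.1 < (k' + 1) * D.s c.1 := by
      rw [← k2]; linarith
    have e2 : (k' : ℝ) * D.s c.1 < (k + 1) * D.s c.1 := by
      rw [← k2']; linarith
    have e3 : k < k' + 1 := by
      have := lt_of_mul_lt_mul_right e1 hs.le
      exact_mod_cast this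
    have e4 : k' < k + 1 := by
      have := lt_of_mul_lt_mul_right e2 hs.le
      exact_mod_cast this
    have e5 : k = k' := by omega
    have e6 : D.R.dep c.2 = D.R.dep c'.2 := by rw [k2, k2', e5]
    have e7 : c.2 = c'.2 := by rw [← hx.2, ← hx'.2, e6]
    exact Prod.ext he e7
  · exfalso
    obtain ⟨m, hm⟩ := Nat.exists_eq_add_of_le hle
    have hs := s_pos D c'.1
    have hsm := s_mul D c.1 m
    rw [← hm] at hsm
    have e1 : ((k * D.B ^ m : ℕ) : ℝ) * D.s c'.1 < ((k' + 1 : ℕ) : ℝ) * D.s c'.1 := by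
      have : ((k * D.B ^ m : ℕ) : ℝ) * D.s c'.1 = D.R.dep c.2 := by
        rw [k2, hsm]
        push_cast
        ring
      rw [this]
      push_cast
      linarith
    have e2 : k * D.B ^ m < k' + 1 := by
      have := lt_of_mul_lt_mul_right e1 hs.le
      exact_mod_cast this
    have e3 : D.R.dep c.2 ≤ D.R.dep c'.2 := by
      rw [k2', k2, hsm]
      have e4 : ((k * D.B ^ m : ℕ) : ℝ) ≤ (k' : ℝ) := by exact_mod_cast (by omega : k * D.B ^ m ≤ k')
      have e5 := mul_le_mul_of_nonneg_right e4 hs.le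
      push_cast at e5 ⊢
      linarith
    have hvv : D.R.le c.2 c'.2 := r7 _ _ x hx hx' e3
    have hcc : D.conn c.2 c'.2 := (l3 _ _ _ hconn hvv hvp').1
    refine h3 c.1 k n1 hlt k1 (by rw [← k2]; exact e3) (by linarith) ?_
    rw [← k2, hvv.2]
    exact hcc

open Classical in
/-- the sum of the lengths of the intervals -/
theorem sum_le (hRTB : S_RTB) (hLOC : S_LOC) (hPRJ : S_PRJ) (D : CD H) (F : Finset (ℕ × H)) (x : H)
    (g : ℝ) (hgx : g ≤ D.R.dep x) (hF : ∀ c ∈ F, D.Lead c) :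
    ∑ c ∈ F, (if D.R.le c.2 x then max 0 (D.ex c x - max g (D.R.dep c.2)) else 0) ≤
      D.R.dep x - g := by
  rw [← Finset.sum_filter]
  set F' := F.filter fun c => D.R.le c.2 x with hF'
  have hmem : ∀ c ∈ F', D.Lead c ∧ D.R.le c.2 x := fun c hc =>
    ⟨hF c (Finset.mem_filter.1 hc).1, (Finset.mem_filter.1 hc).2⟩
  have hvol : ∀ c : ℕ × H, volume (Set.Ioc (max g (D.R.dep c.2)) (D.ex c x)) =
      ENNReal.ofReal (max 0 (D.ex c x - max g (D.R.dep c.2))) := by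
    intro c
    rw [Real.volume_Ioc]
    rcases le_total (D.ex c x - max g (D.R.dep c.2)) 0 with h | h
    · rw [max_eq_left h, ENNReal.ofReal_zero, ENNReal.ofReal_eq_zero]
      exact h
    · rw [max_eq_right h]
  have hdis : Set.PairwiseDisjoint (↑F' : Set (ℕ × H))
      (fun c => Set.Ioc (max g (D.R.dep c.2)) (D.ex c x)) := by
    intro c hc c' hc' hne
    rw [Function.onFun, Set.disjoint_left]
    rintro t ⟨ht1, ht2⟩ ⟨ht1', ht2'⟩
    obtain ⟨a1, a2⟩ := hmem c hc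
    obtain ⟨b1, b2⟩ := hmem c' hc'
    have u1 : D.R.dep c.2 < t := lt_of_le_of_lt (le_max_right _ _) ht1
    have u2 : D.R.dep c'.2 < t := lt_of_le_of_lt (le_max_right _ _) ht1'
    rcases le_total c.1 c'.1 with h | h
    · exact hne (eq_of_common hRTB hLOC hPRJ D x c c' a1 b1 a2 b2 h t u1 ht2 u2 ht2')
    · exact hne (eq_of_common hRTB hLOC hPRJ D x c' c b1 a1 b2 a2 h t u2 ht2' u1 ht2).symm
  have hsub : (⋃ c ∈ F', Set.Ioc (max g (D.R.dep c.2)) (D.ex c x)) ⊆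
      Set.Ioc g (D.R.dep x) := by
    intro t ht
    simp only [Set.mem_iUnion] at ht
    obtain ⟨c, hc, ht1, ht2⟩ := ht
    obtain ⟨a1, a2⟩ := hmem c hc
    exact ⟨lt_of_le_of_lt (le_max_left _ _) ht1, ht2.trans ((hPRJ H D c a1).2.1 x a2).2.1⟩
  have h1 := measure_mono (μ := volume) hsub
  rw [measure_biUnion_finset hdis (fun c _ => measurableSet_Ioc), Real.volume_Ioc,
    Finset.sum_congr rfl (fun c _ => hvol c),
    ← ENNReal.ofReal_sum_of_nonneg (fun c _ => le_max_left _ _),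
    ENNReal.ofReal_le_ofReal_iff (by linarith)] at h1
  exact h1

theorem t (hRTB : S_RTB) (hLOC : S_LOC) (hPRJ : S_PRJ) : S_DIS := by
  intro H _ D F x y hF
  rw [Finset.sum_congr rfl fun c hc => (hPRJ H D c (hF c hc)).2.2.1 x y, Finset.sum_add_distrib,
    D.R.dist_eq x y]
  have h1 := sum_le hRTB hLOC hPRJ D F x (D.R.gp x y) (D.R.gp_le x y) hF
  have h2 := sum_le hRTB hLOC hPRJ D F y (D.R.gp x y) ((hRTB H D.R).2.1 x y) hF
  linarith

end Pool.Agent.Helper71.NT.DIS
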